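import Pool.Agent.Helper10.SP.GoalsC

/-! # AFOL: assembly of the structure of a complete pseudogroup -/

open Complex Metric Set Filter Topology MeasureTheory
open scoped ContDiff ComplexConjugate ComplexOrder Manifold

namespace Pool.Agent.Helper37.SP

open Pool.Agent.Helper10.SP Pool.Agent.Helper95.Lin Pool.Agent.Helper16.Abund
  Pool.Agent.Helper92.Orb

universe u v

theorem base_pt {b : ℕ} (z : Cn b) (w : ℂ) : base (pt z w) = z := by
  funext i
  simp [base, pt]

theorem lc_pt {b : ℕ} (z : Cn b) (w : ℂ) : lc (pt z w) = w := by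
  simp [lc, pt]

theorem Bd_mono {b N : ℕ} (c : Fin N → Cn b) {r r' : ℝ} (h : r ≤ r') : Bd c r ⊆ Bd c r' :=
  iUnion_mono fun _ => ball_subset_ball h

theorem isOpen_Bd {b N : ℕ} (c : Fin N → Cn b) (r : ℝ) : IsOpen (Bd c r) :=
  isOpen_iUnion fun _ => isOpen_ball

theorem continuous_base {b : ℕ} : Continuous (base : Cn (b + 1) → Cn b) :=
  continuous_pi fun i => continuous_apply (Fin.castAdd 1 i)

theorem isOpen_tubeS {b : ℕ} {D : Set (Cn b)} (hD : IsOpen D) : IsOpen (tubeS D) :=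
  hD.preimage continuous_base

theorem PMapG.toPMap {b : ℕ} {D : Set (Cn b)} {G : Type u} [Group G]
    {R : G → Cn (b + 1) → Cn (b + 1) → Prop} {γ : G} {U : Set (Cn b)} {t : Tri b}
    (h : PMapG D R γ U t) : PMap D R U t :=
  ⟨h.1, h.2.1, h.2.2.1.1, h.2.2.1.2.1, h.2.2.1.2.2, h.2.2.2.1, γ, h.2.2.2.2⟩

theorem PMap.toPMapG {b : ℕ} {D : Set (Cn b)} {G : Type u} [Group G]
    {R : G → Cn (b + 1) → Cn (b + 1) → Prop} {U : Set (Cn b)} {t : Tri b}
    (h : PMap D R U t) : ∃ γ, PMapG D R γ U t := by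
  obtain ⟨h1, h2, h3, h4, h5, h6, γ, h7⟩ := h
  exact ⟨γ, h1, h2, ⟨h3, h4, h5⟩, h6, h7⟩

theorem PMap.mono {b : ℕ} {D : Set (Cn b)} {G : Type u} [Group G]
    {R : G → Cn (b + 1) → Cn (b + 1) → Prop} {U U' : Set (Cn b)} {t : Tri b}
    (h : PMap D R U t) (hU : IsOpen U') (hs : U' ⊆ U) : PMap D R U' t := by
  obtain ⟨h1, h2, h3, h4, h5, h6, γ, h7⟩ := h
  exact ⟨hU, hs.trans h2, h3.mono hs, h4.mono hs, h5.mono hs, fun z hz => h6 z (hs hz), γ,
    fun z hz => h7 z (hs hz)⟩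

theorem PMap.congr {b : ℕ} {D : Set (Cn b)} {G : Type u} [Group G]
    {R : G → Cn (b + 1) → Cn (b + 1) → Prop} {U : Set (Cn b)} {t t' : Tri b}
    (h : PMap D R U t) (he : t.EqOn t' U) : PMap D R U t' := by
  obtain ⟨h1, h2, h3, h4, h5, h6, γ, h7⟩ := h
  refine ⟨h1, h2, h3.congr fun z hz => (he z hz).1.symm, h4.congr fun z hz => (he z hz).2.1.symm,
    h5.congr fun z hz => (he z hz).2.2.symm, fun z hz => ?_, γ, fun z hz w => ?_⟩
  · rw [← (he z hz).1, ← (he z hz).2.1]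
    exact h6 z hz
  · rw [← (he z hz).1, ← (he z hz).2.1, ← (he z hz).2.2]
    exact h7 z hz w

theorem afol (hL : S_LOCP.{u, v}) (hP : S_PAX.{u, v}) (hF : S_FIN1.{u, v}) (hK : S_KET.{u, v}) :
    S_AFOL.{u, v} := by
  intro b N G M _ _ _ _ _ _ _ h v hb hd c R C E Φ hm hB
  obtain ⟨H, hH⟩ := hK hd c R E Φ hm
  obtain ⟨pA, pB, pC, pD, pE⟩ := hP hd c R E Φ hm
  have hC1 : 1 ≤ C := hB.1
  have hR8 : 8 + 8 * C ≤ R := hB.2.1
  have hR2 : (2 : ℝ) ≤ R := by linarith
  have h2R : Bd c 2 ⊆ Bd c R := Bd_mono c hR2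
  have hloc : ∀ (γ : G) (x y : Cn (b + 1)), RelE c 2 E γ x y → RelE c R E γ x y :=
    fun γ x y hxy => ⟨h2R hxy.1, h2R hxy.2.1, hxy.2.2⟩
  have hket : KEt (tubeS (Bd c 2)) (RelE (G := G) c 2 E) H := hH 2 (by norm_num) hR2
  refine ⟨H, ?_, hket, ?_, ?_⟩
  · refine
      { posb := hb
        posN := hm.posN
        Rge := hR8
        Cge := hC1
        sep := hm.sep
        smooth := hm.smooth
        pos := hm.pos
        holo := ?_
        pot := ?_
        one := ?_
        mono := ?_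
        congr := ?_
        comp := ?_
        inv := ?_
        ext := hB.2.2.1
        lip := hB.2.2.2.1
        abd := hB.2.2.2.2.1
        bgr := hB.2.2.2.2.2
        fin := ?_
        coc := ?_
        conn := ?_ }
    · intro U t ht
      exact ⟨ht.1, ht.2.1, ht.2.2.1, ht.2.2.2.1, ht.2.2.2.2.1, ht.2.2.2.2.2.1⟩
    · intro U t ht z hz
      obtain ⟨γ, hγ⟩ := PMap.toPMapG ht
      exact (pA γ U t hγ z hz).2
    · intro U hU hUs
      exact PMapG.toPMap (pB U hU hUs)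
    · intro U U' t ht hU' hs
      exact PMap.mono ht hU' hs
    · intro U t t' ht he
      exact PMap.congr ht he
    · intro U U' U'' t s ht hs hU'' hsub hmap
      obtain ⟨γ, hγ⟩ := PMap.toPMapG ht
      obtain ⟨γ', hγ'⟩ := PMap.toPMapG hs
      exact PMapG.toPMap (pC γ γ' U U' U'' t s hγ hγ' hU'' hsub hmap)
    · intro U t ht z hz
      obtain ⟨γ, hγ⟩ := PMap.toPMapG ht
      obtain ⟨s, U', U'', h1, h2⟩ := pD γ U t hγ z hz
      exact ⟨s, U', U'', PMapG.toPMap h1, h2⟩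
    · intro i r s hs
      refine hF hd c R E Φ hm (c i) r (2 + 4 * C) 4 (by norm_num) (by linarith) s fun k => ?_
      obtain ⟨⟨hk1, z, hz, hgz⟩, hk2⟩ := hs k
      refine ⟨hk1, ?_, hk2⟩
      obtain ⟨j, hj⟩ := mem_iUnion.1 hgz
      have h4 : c i ∈ ball (c i) (4 : ℝ) := mem_ball_self (by norm_num)
      have hz4 : z ∈ ball (c i) (4 : ℝ) := ball_subset_ball (by norm_num) hz
      have hlip := hB.2.2.2.1 i (s k) ⟨hk1, z, hz, hgz⟩ (c i) h4 z hz4
      refine mem_iUnion.2 ⟨j, ?_⟩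
      rw [mem_ball, dist_eq_norm] at hz hj ⊢
      have h5 : ‖c i - z‖ < 2 := by rw [norm_sub_rev]; exact hz
      have h6 : (s k).g (c i) - c j = ((s k).g (c i) - (s k).g z) + ((s k).g z - c j) := by abel
      have h7 : ‖(s k).g (c i) - c j‖ ≤ ‖(s k).g (c i) - (s k).g z‖ + ‖(s k).g z - c j‖ := by
        rw [h6]; exact norm_add_le _ _
      nlinarith
    · intro z hz w
      obtain ⟨γ, z', hz', w', hw', hp⟩ := hm.cov (E (pt z w))
      have hrel : RelE (G := G) c R E γ (pt z w) (pt z' w') := by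
        refine ⟨?_, ?_, hp⟩
        · change base (pt z w) ∈ Bd c R
          rw [base_pt]; exact hz
        · change base (pt z' w') ∈ Bd c R
          rw [base_pt]; exact Bd_mono c hm.one_lt.le hz'
      obtain ⟨ρ, hρ, t, ht, hy⟩ := hL hd c R E Φ hm γ _ _ hrel
      rw [base_pt, lc_pt] at hy
      rw [base_pt] at ht
      have e1 : z' = t.g z := by
        have := congrArg base hy
        rwa [base_pt, base_pt] at this
      have e2 : w' = t.a z * w + t.β z := by
        have := congrArg lc hy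
        rwa [lc_pt, lc_pt] at this
      exact ⟨ball z ρ, t, PMapG.toPMap ht, mem_ball_self hρ, e1 ▸ hz', e2 ▸ hw'⟩
    · intro S hS hSo hSc hinv
      have h1 : tubeS S ⊆ tubeS (Bd c 2) := fun x hx => hS hx
      have h2 : tubeS (Bd c 2) \ tubeS S = tubeS (Bd c 2 \ S) := rfl
      have h3 := hket.et.conn (tubeS S) h1 (isOpen_tubeS hSo) (h2 ▸ isOpen_tubeS hSc) ?_
      · rcases h3 with h3 | h3
        · left
          rw [eq_empty_iff_forall_notMem] at h3 ⊢
          intro z hz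
          refine h3 (pt z 0) ?_
          change base (pt z 0) ∈ S
          rw [base_pt]; exact hz
        · right
          refine hS.antisymm fun z hz => ?_
          have : pt z 0 ∈ tubeS (Bd c 2) := by
            change base (pt z 0) ∈ Bd c 2
            rw [base_pt]; exact hz
          rw [← h3] at this
          change base (pt z 0) ∈ S at this
          rwa [base_pt] at this
      · intro γ x y hxy
        obtain ⟨ρ, hρ, t, ht, hy⟩ := hL hd c R E Φ hm γ _ _ (hloc γ x y hxy)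
        have e1 : base y = t.g (base x) := by rw [hy, base_pt]
        have h4 := hinv (ball (base x) ρ) t (PMapG.toPMap ht) (base x) (mem_ball_self hρ) hxy.1
          (e1 ▸ hxy.2.1)
        rw [← e1] at h4
        exact h4
  · intro γ x y hxy
    obtain ⟨ρ, hρ, t, ht, hy⟩ := hL hd c R E Φ hm γ _ _ (hloc γ x y hxy)
    have e1 : base y = t.g (base x) := by rw [hy, base_pt]
    have hcont : ContinuousOn t.g (ball (base x) ρ) := ht.2.2.1.1.continuousOn
    have hO : IsOpen (ball (base x) ρ ∩ t.g ⁻¹' (Bd c 2)) :=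
      hcont.isOpen_inter_preimage isOpen_ball (isOpen_Bd c 2)
    have hO2 : IsOpen ((ball (base x) ρ ∩ t.g ⁻¹' (Bd c 2)) ∩ Bd c 2) := hO.inter (isOpen_Bd c 2)
    refine ⟨(ball (base x) ρ ∩ t.g ⁻¹' (Bd c 2)) ∩ Bd c 2, t,
      PMap.mono (PMapG.toPMap ht) hO2 fun z hz => hz.1.1, ⟨⟨mem_ball_self hρ, ?_⟩, hxy.1⟩,
      fun z hz => hz.2, fun z hz => hz.1.2, hy, fun z hz w => ?_⟩
    · change t.g (base x) ∈ Bd c 2
      rw [← e1]; exact hxy.2.1
    · have h5 := ht.2.2.2.2 z hz.1.1 w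
      refine ⟨?_, ?_, h5.2.2⟩
      · change base (pt z w) ∈ Bd c 2
        rw [base_pt]; exact hz.2
      · change base (pt _ _) ∈ Bd c 2
        rw [base_pt]; exact hz.1.2
  · intro U t ht hU hmap
    obtain ⟨γ, hγ⟩ := PMap.toPMapG ht
    refine ⟨γ, fun z hz w => ⟨?_, ?_, (hγ.2.2.2.2 z hz w).2.2⟩⟩
    · change base (pt z w) ∈ Bd c 2
      rw [base_pt]; exact hU hz
    · change base (pt _ _) ∈ Bd c 2
      rw [base_pt]; exact hmap hz

end Pool.Agent.Helper37.SP
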